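import Pool.Agent.helper81.CI.Spec
import Pool.Agent.helper81.CW.Lower
import Pool.Agent.helper81.CW.Upper

/-!
# Project ci, module CIN
-/

set_option autoImplicit false

open MeasureTheory Set Filter Topology
open scoped ENNReal
open Pool.Agent.helper81.CW Pool.Agent.CL

noncomputable section

namespace Pool.Agent.CI

theorem CIN_s : Tendsto (fun n : ℕ => √(2 / ((n : ℝ) + 1))) atTop (𝓝 0) := by
  have h1 : Tendsto (fun n : ℕ => 2 / ((n : ℝ) + 1)) atTop (𝓝 0) :=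
    tendsto_const_nhds.div_atTop (tendsto_atTop_add_const_right _ _ tendsto_natCast_atTop_atTop)
  have h2 := (Real.continuous_sqrt.tendsto (0 : ℝ)).comp h1
  rw [Real.sqrt_zero] at h2
  exact h2

theorem CIN_low : Tendsto (fun n : ℕ => √(3 + 2 * √(2 / ((n : ℝ) + 1)) + 2 * √(2 / ((n : ℝ) + 1)) ^ 2) - 1
    - √(2 / ((n : ℝ) + 1))) atTop (𝓝 (√3 - 1)) := by
  have h : Continuous (fun s : ℝ => √(3 + 2 * s + 2 * s ^ 2) - 1 - s) := by fun_prop
  have h2 := (h.tendsto 0).comp CIN_s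
  have h3 : √(3 + 2 * (0 : ℝ) + 2 * 0 ^ 2) - 1 - 0 = √3 - 1 := by norm_num
  rw [h3] at h2
  exact h2

theorem CIN (hSBI : SBI_stmt) (hTWI : TWI_stmt) (hPOI : POI_stmt) (hLMI : LMI_stmt) : CIN_stmt := by
  obtain ⟨f, hf⟩ : ∃ f : ℕ → ℝ, f = fun n => (sigma n).toReal := ⟨_, rfl⟩
  have hfin : ∀ n, 1 ≤ n → sigma n ≠ ∞ := fun n hn =>
    ne_top_of_le_ne_top ENNReal.one_ne_top (hSBI n hn).1
  have hof : ∀ n, 1 ≤ n → ENNReal.ofReal (f n) = sigma n := by
    intro n hn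
    rw [hf]
    exact ENNReal.ofReal_toReal (hfin n hn)
  have hf1 : ∀ n, 1 ≤ n → 0 < f n ∧ f n ≤ 1 ∧ (0.6 : ℝ) ^ n ≤ f n := by
    intro n hn
    have h1 : (0.6 : ℝ) ^ n ≤ f n := by
      have h2 := ENNReal.toReal_mono (hfin n hn) (hSBI n hn).2
      rw [ENNReal.toReal_ofReal (by positivity)] at h2
      rw [hf]
      exact h2
    refine ⟨lt_of_lt_of_le (by positivity) h1, ?_, h1⟩
    have h3 := ENNReal.toReal_mono ENNReal.one_ne_top (hSBI n hn).1
    rw [ENNReal.toReal_one] at h3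
    rw [hf]
    exact h3
  have hfP : ∀ d m : ℕ, 1 ≤ d → 1 ≤ m → f (m * d) ≤ (31 * (d : ℝ) * f d) ^ m := by
    intro d m hd hm
    have h1 := hPOI d m hd hm
    have h2 : (ENNReal.ofReal (31 * (d : ℝ)) * sigma d) ^ m = ENNReal.ofReal ((31 * (d : ℝ) * f d) ^ m) := by
      rw [← hof d hd, ← ENNReal.ofReal_mul (by positivity), ENNReal.ofReal_pow]
      exact mul_nonneg (by positivity) (hf1 d hd).1.le
    rw [h2] at h1
    have h3 := ENNReal.toReal_mono ENNReal.ofReal_ne_top h1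
    rw [ENNReal.toReal_ofReal (pow_nonneg (mul_nonneg (by positivity) (hf1 d hd).1.le) m)] at h3
    rw [hf] at h3 ⊢
    exact h3
  have hfT : ∀ d e : ℕ, 1 ≤ d → 1 ≤ e → f (d + e) ≤ 31 ^ 2 * (d : ℝ) * (e : ℝ) * (f d * f e) := by
    intro d e hd he
    have h1 := hTWI d e hd he
    have h0 : 0 ≤ f d * f e := mul_nonneg (hf1 d hd).1.le (hf1 e he).1.le
    have h2 : ENNReal.ofReal (961 * (d : ℝ) * (e : ℝ)) * (sigma d * sigma e) =
        ENNReal.ofReal (31 ^ 2 * (d : ℝ) * (e : ℝ) * (f d * f e)) := by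
      rw [← hof d hd, ← hof e he, ← ENNReal.ofReal_mul (hf1 d hd).1.le,
        ← ENNReal.ofReal_mul (by positivity)]
      congr 1
      ring
    rw [h2] at h1
    have h3 := ENNReal.toReal_mono ENNReal.ofReal_ne_top h1
    rw [ENNReal.toReal_ofReal (mul_nonneg (by positivity) h0)] at h3
    rw [hf] at h3 ⊢
    exact h3
  obtain ⟨β, hβ1, hβ2, hβ3⟩ := hLMI f 0.6 31 (by norm_num) (by norm_num) hf1 hfP hfT
  have hpow : ∀ (a : ℝ) (n : ℕ), 0 ≤ a → 1 ≤ n → (a ^ n) ^ (1 / (n : ℝ)) = a := by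
    intro a n ha hn
    have hn0 : (n : ℝ) ≠ 0 := by
      have : (1 : ℝ) ≤ n := by exact_mod_cast hn
      linarith
    rw [← Real.rpow_natCast, ← Real.rpow_mul ha, mul_one_div_cancel hn0, Real.rpow_one]
  have hβ9 : β ≤ 0.991 := by
    refine le_of_tendsto hβ2 ?_
    filter_upwards [upper_sigma, eventually_ge_atTop 1] with n h hn
    have h1 : f n ≤ 0.991 ^ n := by
      have h2 := ENNReal.toReal_mono ENNReal.ofReal_ne_top h
      rw [ENNReal.toReal_ofReal (by positivity)] at h2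
      rw [hf]
      exact h2
    calc f n ^ (1 / (n : ℝ)) ≤ (0.991 ^ n) ^ (1 / (n : ℝ)) :=
        Real.rpow_le_rpow (hf1 n hn).1.le h1 (by positivity)
      _ = 0.991 := hpow _ n (by norm_num) hn
  have hβ7 : √3 - 1 ≤ β := by
    refine le_of_tendsto_of_tendsto CIN_low hβ2 ?_
    have hpos : ∀ᶠ n : ℕ in atTop, 0 < √(3 + 2 * √(2 / ((n : ℝ) + 1)) + 2 * √(2 / ((n : ℝ) + 1)) ^ 2) - 1
        - √(2 / ((n : ℝ) + 1)) := by
      refine CIN_low.eventually_const_lt ?_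
      have : (1 : ℝ) < √3 := by
        rw [Real.lt_sqrt (by norm_num)]
        norm_num
      linarith
    filter_upwards [hpos, eventually_ge_atTop 1] with n hp hn
    have h1 := lower_sigma n hn _ rfl
    have h2 := ENNReal.toReal_mono (hfin n hn) h1
    rw [ENNReal.toReal_ofReal (pow_nonneg hp.le n)] at h2
    rw [← hpow _ n hp.le hn]
    refine Real.rpow_le_rpow (pow_nonneg hp.le n) ?_ (by positivity)
    rw [hf]
    exact h2
  refine ⟨β, hβ7, hβ9, ?_, ?_⟩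
  · rw [hf] at hβ2
    exact hβ2
  · intro d hd
    have h1 := hβ3 d hd
    rw [← hof d hd, ← ENNReal.ofReal_mul (by positivity)]
    exact ENNReal.ofReal_le_ofReal h1

end Pool.Agent.CI
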